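import Pool.Agent.Q278.BlkCyc
import Pool.Agent.Q278.Blk5
import Pool.Agent.Q278.WVP
import Pool.Agent.Q278.Jet

set_option autoImplicit false

/-! The truncated q-congruence with fifth powers modulo `Φ_n(q)³`. -/

namespace Pool.Agent.Results.MP_40e425_nt.Full

open Finset Polynomial Q278.Loc Q278.Cyc Q278.Unit Q278.Smooth Q278.Blk

/-- `[m] = 1 + q + ⋯ + q ^ (m - 1)`. -/
noncomputable def qint (m : ℕ) : RatFunc ℚ := ∑ i ∈ range m, RatFunc.X ^ i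

/-- `a_k(q)`. -/
noncomputable def a (k : ℕ) : RatFunc ℚ := ∏ j ∈ range k,
  (((1 - RatFunc.X ^ (2 * j + 1)) ^ 4 * (1 - RatFunc.X ^ (4 * j + 2))) /
    ((1 - RatFunc.X ^ (2 * j + 2)) ^ 4 * (1 - RatFunc.X ^ (4 * j + 4))))

/-- `c_k`. -/
def ck (k : ℕ) : ℚ := (1 / 4 ^ k * ((2 * k).choose k : ℚ)) ^ 5

/-- `S_{m,n}(q)`. -/
noncomputable def S (m n : ℕ) : RatFunc ℚ :=
  ∑ k ∈ range (m * n), (-1) ^ k * qint (4 * k + 1) * a k * RatFunc.X ^ k

/-- `λ_n(q)` for `n ≡ 1 (mod 4)`. -/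
noncomputable def lam (n : ℕ) : RatFunc ℚ := qint n * ∏ j ∈ range ((n - 1) / 4),
  ((1 - RatFunc.X ^ (4 * j + 2)) / (1 - RatFunc.X ^ (4 * j + 4))) ^ 2

/-- `T_{m,n}(q)`. -/
noncomputable def T (m n : ℕ) : RatFunc ℚ :=
  lam n * ((∑ k ∈ range m, (-1) ^ k * (4 * k + 1) * ck k : ℚ) : RatFunc ℚ)

theorem qint_eq (m : ℕ) : (1 - q) * qint m = 1 - q ^ m := by
  have := geom_sum_mul q m
  unfold qint
  linear_combination -this

theorem a_eq (k : ℕ) : a k = r q k ^ 4 * r (q ^ 2) k := by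
  unfold a r
  rw [← prod_pow, ← prod_mul_distrib]
  apply prod_congr rfl
  intro l _
  rw [← pow_mul, ← pow_mul, show 2 * (2 * l + 1) = 4 * l + 2 by ring,
    show 2 * (2 * l + 2) = 4 * l + 4 by ring, div_pow, div_mul_div_comm]

theorem ck_eq (k : ℕ) : ((ck k : ℚ) : RatFunc ℚ) = (c (RatFunc ℚ) k) ^ 5 := by
  have h : ∀ k, (1 / 4 ^ k * ((2 * k).choose k : ℚ)) =
      ∏ i ∈ range k, (((2 * i + 1 : ℕ) : ℚ) / ((2 * i + 2 : ℕ) : ℚ)) := by
    intro k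
    induction k with
    | zero => simp
    | succ k ih =>
      rw [prod_range_succ, ← ih]
      have h1 := Nat.succ_mul_centralBinom_succ k
      rw [Nat.centralBinom_eq_two_mul_choose, Nat.centralBinom_eq_two_mul_choose] at h1
      have h2 : ((k : ℚ) + 1) * ((2 * (k + 1)).choose (k + 1) : ℚ) =
          2 * (2 * k + 1) * ((2 * k).choose k : ℚ) := by exact_mod_cast h1
      have h3 : (k : ℚ) + 1 ≠ 0 := by positivity
      have h4 : ((2 * (k + 1)).choose (k + 1) : ℚ) =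
          2 * (2 * k + 1) * ((2 * k).choose k : ℚ) / ((k : ℚ) + 1) := by
        rw [eq_div_iff h3]; linear_combination h2
      rw [h4]
      push_cast
      field_simp
      ring
  unfold ck c
  rw [h]
  push_cast
  rfl

section loc

variable {n N : ℕ} {η : ℂ}

/-- the terms with two parameters -/
noncomputable def e (n i : ℕ) (s t : ℤ) : RatFunc ℚ :=
  (-1) ^ i * (1 - (q ^ n) ^ (2 * s) * q ^ (4 * i + 1)) * q ^ i *
    (rs n q s i ^ 2 * rs n (q ^ 2) s i * (rs n q (s + t) i * rs n q (s - t) i))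

/-- the sum over a block -/
noncomputable def E (n N : ℕ) (s t : ℤ) : RatFunc ℚ := ∑ i ∈ range (N + 1), e n i s t

/-- the factor of the reversal -/
noncomputable def κ (n N : ℕ) (s t : ℤ) : RatFunc ℚ :=
  (q ^ n) ^ (-2 * s) * (q⁻¹ * q ^ N) * (rs n q (-1 - s) N ^ 2 * rs n (q ^ 2) (-1 - s) N *
    (rs n q (-1 - (s + t)) N * rs n q (-1 - (s - t)) N))

/-- the factors of the blocks -/
noncomputable def A (n j : ℕ) : RatFunc ℚ :=
  (-1) ^ j * (q ^ n) ^ j * (r q (n * j) ^ 4 * r (q ^ 2) (n * j))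

theorem E_even (s t : ℤ) : E n N s (-t) = E n N s t := by
  unfold E e
  apply sum_congr rfl
  intro i _
  rw [sub_neg_eq_add, ← sub_eq_add_neg]
  ring

theorem κ_even (s t : ℤ) : κ n N s (-t) = κ n N s t := by
  unfold κ
  rw [sub_neg_eq_add, ← sub_eq_add_neg]
  ring

variable (hη : IsPrimitiveRoot η n) (hn : n = 2 * N + 1)
include hη hn

theorem H1 : H (Reg η) (Φ n) n N q := by
  have := cycH hη hn (d := 1) (Nat.coprime_one_right n) one_pos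
  rwa [pow_one] at this

theorem H2 : H (Reg η) (Φ n) n N (q ^ 2) := cycH hη hn (by
  rw [Nat.coprime_two_right]; exact ⟨N, hn⟩) two_pos

theorem sm_e (α β γ δ : ℤ) {i : ℕ} (hi : i ≤ N) :
    Sm (Reg η) (Φ n) 3 0 (fun x => e n i (α * x + β) (γ * x + δ)) := by
  have h := H1 hη hn
  have h2 := H2 hη hn
  have s1 : Sm (Reg η) (Φ n) 3 0 (fun x : ℤ => (-1 : RatFunc ℚ) ^ i) :=
    Sm.const h.hπ (of_O ((Reg η).pow_mem ((Reg η).neg_mem (Reg η).one_mem) i))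
  have s2 := h.sm_fac' 3 (2 * α) (2 * β) (q ^ (4 * i + 1)) (q_pow_mem η _)
  have s3 : Sm (Reg η) (Φ n) 3 0 (fun x : ℤ => q ^ i) := Sm.const h.hπ (of_O (q_pow_mem η _))
  have s4 := Sm.pow h.hπ (h.sm_rs' 3 α β hi) 2
  have s5 := h2.sm_rs' 3 α β hi
  have s6 := h.sm_rs' 3 (α + γ) (β + δ) hi
  have s7 := h.sm_rs' 3 (α - γ) (β - δ) hi
  have s8 := Sm.mul h.hπ (Sm.mul h.hπ (Sm.mul h.hπ s1 s2) s3)
    (Sm.mul h.hπ (Sm.mul h.hπ s4 s5) (Sm.mul h.hπ s6 s7))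
  simp only [add_zero] at s8
  convert s8 using 2 with x
  unfold e
  rw [show 2 * (α * x + β) = 2 * α * x + 2 * β by ring,
    show α * x + β + (γ * x + δ) = (α + γ) * x + (β + δ) by ring,
    show α * x + β - (γ * x + δ) = (α - γ) * x + (β - δ) by ring]

theorem sm_E (α β γ δ : ℤ) : Sm (Reg η) (Φ n) 3 0 (fun x => E n N (α * x + β) (γ * x + δ)) := by
  have h := H1 hη hn
  unfold E
  exact Sm.sum h.hπ (fun i hi => sm_e hη hn α β γ δ (by have := mem_range.1 hi; omega))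

theorem sm_κ (α β γ δ : ℤ) : Sm (Reg η) (Φ n) 3 0 (fun x => κ n N (α * x + β) (γ * x + δ)) := by
  have h := H1 hη hn
  have h2 := H2 hη hn
  have s1 := h.sm_w 3 (-2 * α) (-2 * β)
  have s3 : Sm (Reg η) (Φ n) 3 0 (fun x : ℤ => q⁻¹ * q ^ N) := by
    refine Sm.const h.hπ (of_O ((Reg η).mul_mem h.hp.2.1 (q_pow_mem η _)))
  have s4 := Sm.pow h.hπ (h.sm_rs' 3 (-α) (-1 - β) le_rfl) 2
  have s5 := h2.sm_rs' 3 (-α) (-1 - β) le_rfl
  have s6 := h.sm_rs' 3 (-(α + γ)) (-1 - (β + δ)) le_rfl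
  have s7 := h.sm_rs' 3 (-(α - γ)) (-1 - (β - δ)) le_rfl
  have s8 := Sm.mul h.hπ (Sm.mul h.hπ s1 s3)
    (Sm.mul h.hπ (Sm.mul h.hπ s4 s5) (Sm.mul h.hπ s6 s7))
  simp only [add_zero] at s8
  convert s8 using 2 with x
  unfold κ
  rw [show -2 * (α * x + β) = -2 * α * x + -2 * β by ring,
    show -1 - (α * x + β) = -α * x + (-1 - β) by ring,
    show -1 - (α * x + β + (γ * x + δ)) = -(α + γ) * x + (-1 - (β + δ)) by ring,
    show -1 - (α * x + β - (γ * x + δ)) = -(α - γ) * x + (-1 - (β - δ)) by ring]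

theorem U_κ (s t : ℤ) : U (Reg η) (κ n N s t) := by
  have h := H1 hη hn
  have h2 := H2 hη hn
  unfold κ
  exact ((h.wz _).mul (h.hp.inv.mul (h.hp.pow N))).mul
    ((((h.U_rs _ le_rfl).pow 2).mul (h2.U_rs _ le_rfl)).mul
      ((h.U_rs _ le_rfl).mul (h.U_rs _ le_rfl)))

/-- the reversal -/
theorem E_rev {b : ℕ} (hb : N = 2 * b) (s t : ℤ) :
    E n N (-1 - s) (-t) = -κ n N s t * E n N s t := by
  have h := H1 hη hn
  have h2 := H2 hη hn
  have hq0 : q ≠ 0 := q_ne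
  unfold E
  rw [← sum_range_reflect, mul_sum]
  apply sum_congr rfl
  intro i hi
  have hi' := mem_range.1 hi
  rw [show N + 1 - 1 - i = N - i by omega]
  unfold e κ
  rw [show -1 - s + -t = -1 - (s + t) by ring, show -1 - s - -t = -1 - (s - t) by ring,
    h.rev' s i (by omega), h2.rev' s i (by omega), h.rev' (s + t) i (by omega),
    h.rev' (s - t) i (by omega)]
  have hw0 := h.Uw.2.2
  have hs0 : (q ^ n) ^ (2 * s) ≠ 0 := (h.wz _).2.2
  have ez1 : (q ^ n) ^ (2 * (-1 - s)) = (q ^ n)⁻¹ * (q ^ n)⁻¹ * ((q ^ n) ^ (2 * s))⁻¹ := by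
    rw [show 2 * (-1 - s) = -(2 * s) + (-1) + (-1) by ring, zpow_add₀ hw0, zpow_add₀ hw0,
      zpow_neg_one, zpow_neg]
    ring
  have ez2 : (q ^ n) ^ (-2 * s) = ((q ^ n) ^ (2 * s))⁻¹ := by
    rw [show -2 * s = -(2 * s) by ring, zpow_neg]
  rw [ez1, ez2]
  have e1 : (q ^ n)⁻¹ * (q ^ n)⁻¹ * ((q ^ n) ^ (2 * s))⁻¹ * q ^ (4 * (N - i) + 1) =
      ((q ^ n) ^ (2 * s) * q ^ (4 * i + 1))⁻¹ := by
    have : q ^ n * q ^ n = q ^ (4 * (N - i) + 1) * q ^ (4 * i + 1) := by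
      rw [← pow_add, ← pow_add]; congr 1; omega
    rw [← mul_inv, this]; field_simp
  have e2 : 1 - ((q ^ n) ^ (2 * s) * q ^ (4 * i + 1))⁻¹ =
      -((q ^ n) ^ (2 * s) * q ^ (4 * i + 1))⁻¹ * (1 - (q ^ n) ^ (2 * s) * q ^ (4 * i + 1)) := by
    field_simp; ring
  have e3 : (-1 : RatFunc ℚ) ^ (N - i) = (-1) ^ i := by
    have h3 : (-1 : RatFunc ℚ) ^ (N - i) * (-1) ^ i = 1 := by
      rw [← pow_add, show N - i + i = 2 * b by omega, pow_mul]; norm_num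
    have h5 : (-1 : RatFunc ℚ) ^ i * (-1) ^ i = 1 := by
      rw [← pow_add, ← two_mul, pow_mul]; norm_num
    linear_combination (-1 : RatFunc ℚ) ^ i * h3 - (-1 : RatFunc ℚ) ^ (N - i) * h5
  have e4 : (q ^ (4 * i + 1))⁻¹ * (q ^ (N - i) * (q ^ i) ^ 2 * (q ^ 2) ^ i * q ^ i * q ^ i) =
      q⁻¹ * q ^ N * q ^ i := by
    have h3 : q ^ (N - i) * (q ^ i) ^ 2 * (q ^ 2) ^ i * q ^ i * q ^ i * q =
        q ^ N * q ^ i * q ^ (4 * i + 1) := by
      rw [← pow_mul, ← pow_mul, ← pow_add, ← pow_add, ← pow_add, ← pow_add, ← pow_succ, ← pow_add,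
        ← pow_add]
      congr 1; omega
    have h4 : q ^ (4 * i + 1) ≠ 0 := pow_ne_zero _ hq0
    generalize q ^ (N - i) * (q ^ i) ^ 2 * (q ^ 2) ^ i * q ^ i * q ^ i = x at *
    generalize q ^ (4 * i + 1) = y at *
    generalize q ^ N = z at *
    generalize q ^ i = w at *
    field_simp
    linear_combination h3
  rw [e1, e2, e3, mul_inv]
  generalize ((q ^ n) ^ (2 * s))⁻¹ = W' at *
  linear_combination (-(-1) ^ i * W' * (1 - (q ^ n) ^ (2 * s) * q ^ (4 * i + 1)) *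
    (rs n q (-1 - s) N * rs n q s i) ^ 2 * (rs n (q ^ 2) (-1 - s) N * rs n (q ^ 2) s i) *
    (rs n q (-1 - (s + t)) N * rs n q (s + t) i) *
    (rs n q (-1 - (s - t)) N * rs n q (s - t) i)) * e4

theorem E_mem (s t : ℤ) : E n N s t ∈ Reg η := by
  have h1 := sm_E hη hn 0 s 0 t
  have h2 := h1.val 0
  simp only [zero_mul, zero_add] at h2
  exact I_zero h2

/-- the exact value at `(0, 1)` -/
theorem E_01 {b : ℕ} (hb : N = 2 * b) : E n N 0 1 = (1 - q ^ n) *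
    ∏ i ∈ range b, ((1 - q ^ (4 * i + 2)) / (1 - q ^ (4 * i + 4))) ^ 2 := by
  have h := H1 hη hn
  have hq0 : q ≠ 0 := q_ne
  have hw0 := h.Uw.2.2
  have hS := Q278.WVP.S_even (q := q) hq0 (fun j hj => one_sub_q_ne hj) b
  rw [show 4 * b + 1 = n by omega, ← hb] at hS
  rw [← hS]
  unfold E e Q278.WVP.S Q278.WVP.P
  apply sum_congr rfl
  intro k hk
  rw [mul_zero, zpow_zero, one_mul, zero_add, zero_sub]
  have e0 : q ^ k = ∏ _l ∈ range k, q := by rw [prod_const, card_range]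
  have e0' : (-1 : RatFunc ℚ) ^ k = ∏ _l ∈ range k, (-1 : RatFunc ℚ) := by
    rw [prod_const, card_range]
  rw [mul_assoc ((-1 : RatFunc ℚ) ^ k * (1 - q ^ (4 * k + 1))), mul_comm ((-1 : RatFunc ℚ) ^ k),
    mul_assoc (1 - q ^ (4 * k + 1))]
  congr 1
  rw [e0, e0']
  unfold rs
  rw [← prod_pow, ← prod_mul_distrib, ← prod_mul_distrib, ← prod_mul_distrib, ← prod_mul_distrib,
    ← prod_mul_distrib]
  apply prod_congr rfl
  intro l _
  unfold Q278.WVP.ρ Q278.WVP.E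
  rw [zpow_zero, zpow_zero, one_mul, one_mul, one_mul, one_mul, zpow_one, zpow_neg_one]
  have f1 : q ^ n * q ^ (2 * l + 1) = q ^ (2 * l + 2) * q ^ (2 * N) := by
    rw [← pow_add, ← pow_add]; congr 1; omega
  have f2 : q ^ n * q ^ (2 * l + 2) = q ^ (2 * l + 3) * q ^ (2 * N) := by
    rw [← pow_add, ← pow_add]; congr 1; omega
  have f3 : (1 - (q ^ n)⁻¹ * q ^ (2 * l + 1)) = (q ^ (2 * N))⁻¹ * (q ^ (2 * N) - q ^ (2 * l)) := by
    rw [hn, pow_succ q (2 * N), pow_succ q (2 * l)]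
    field_simp
  have f4 : (1 - (q ^ n)⁻¹ * q ^ (2 * l + 2)) =
      (q ^ (2 * N))⁻¹ * (q ^ (2 * N) - q ^ (2 * l + 1)) := by
    rw [hn, pow_succ q (2 * N), pow_succ q (2 * l + 1)]
    field_simp
  have f5 : 1 - (q ^ 2) ^ (2 * l + 1) = (1 - q ^ (2 * l + 1)) * (1 + q ^ (2 * l + 1)) := by ring
  have f6 : 1 - (q ^ 2) ^ (2 * l + 2) = (1 - q ^ (2 * l + 2)) * (1 + q ^ (2 * l + 2)) := by ring
  rw [f1, f2, f3, f4, f5, f6]
  have g1 : q ^ (2 * N) ≠ 0 := pow_ne_zero _ hq0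
  have g2 := Q278.WVP.pow_sub_ne (q := q) hq0 (fun j hj => one_sub_q_ne hj)
    (show 2 * N ≠ 2 * l + 1 by omega)
  have g3 : 1 - q ^ (2 * l + 2) ≠ 0 := one_sub_q_ne (by omega)
  have g4 : 1 + q ^ (2 * l + 2) ≠ 0 := by
    intro h0
    have h1 : 1 - q ^ (2 * (2 * l + 2)) ≠ 0 := one_sub_q_ne (by omega)
    apply h1
    have : 1 - q ^ (2 * (2 * l + 2)) = (1 - q ^ (2 * l + 2)) * (1 + q ^ (2 * l + 2)) := by ring
    rw [this, h0, mul_zero]
  have g5 : 1 - q ^ (2 * l + 3) * q ^ (2 * N) ≠ 0 := by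
    rw [← pow_add]; exact one_sub_q_ne (by omega)
  generalize 1 - q ^ (2 * l + 1) = x1 at *
  generalize 1 + q ^ (2 * l + 1) = x2 at *
  generalize 1 - q ^ (2 * l + 2) * q ^ (2 * N) = x4 at *
  generalize 1 - q ^ (2 * l + 2) = x3 at *
  generalize 1 + q ^ (2 * l + 2) = x5 at *
  generalize 1 - q ^ (2 * l + 3) * q ^ (2 * N) = x6 at *
  generalize q ^ (2 * N) - q ^ (2 * l) = x7 at *
  generalize q ^ (2 * N) - q ^ (2 * l + 1) = x8 at *
  generalize q ^ (2 * N) = x9 at *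
  field_simp

/-- the antisymmetric function -/
noncomputable def G (n N : ℕ) (s t : ℤ) : RatFunc ℚ := E n N s t - E n N (-1 - s) (-t)

omit hη hn in
theorem G_even (s t : ℤ) : G n N s (-t) = G n N s t := by
  unfold G
  rw [E_even, E_even (-1 - s) (-t)]

omit hη hn in
theorem G_anti (s t : ℤ) : G n N (-1 - s) t = -G n N s t := by
  unfold G
  rw [E_even (-1 - s) t, E_even, show -1 - (-1 - s) = s by ring]
  ring

theorem sm_G (α β γ δ : ℤ) : Sm (Reg η) (Φ n) 3 0 (fun x => G n N (α * x + β) (γ * x + δ)) := by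
  have s1 := sm_E hη hn α β γ δ
  have s2 := sm_E hη hn (-α) (-1 - β) (-γ) (-δ)
  have s3 := s1.sub s2
  convert s3 using 2 with x
  unfold G
  rw [show -1 - (α * x + β) = -α * x + (-1 - β) by ring,
    show -(γ * x + δ) = -γ * x + -δ by ring]

theorem G_eq {b : ℕ} (hb : N = 2 * b) (s t : ℤ) : G n N s t = E n N s t * (1 + κ n N s t) := by
  unfold G
  rw [E_rev hη hn hb]
  ring

theorem U_two : U (Reg η) (2 : RatFunc ℚ) := (H1 hη hn).two

theorem U_three : U (Reg η) (3 : RatFunc ℚ) := by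
  have := (H1 hη hn).h0 3 (by norm_num)
  exact_mod_cast this

/-- `G` does not depend on the parameter `t` to this order. -/
theorem G_01 : G n N 0 1 - G n N 0 0 ∈ I (Reg η) (Φ n) 3 := by
  have h2 := U_two hη hn
  have h3 := U_three hη hn
  -- the line `(x, -x)`
  have l1 := third (sm_G hη hn 1 0 (-1) 0) (-2)
  have l2 := third (sm_G hη hn 1 0 0 1) (-2)
  have l3 := third (sm_G hη hn 1 0 0 2) (-2)
  have l4 := third (sm_G hη hn 0 0 1 0) (-1)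
  norm_num at l1 l2 l3 l4
  have a1 : G n N 1 (-1) = G n N 1 1 := G_even 1 1
  have a2 : G n N (-1) 1 = -G n N 0 1 := G_anti 0 1
  have a3 : G n N (-2) 2 = -G n N 1 2 := G_anti 1 2
  have a4 : G n N (-2) 1 = -G n N 1 1 := G_anti 1 1
  have a5 : G n N (-1) 2 = -G n N 0 2 := G_anti 0 2
  have a6 : G n N 0 (-1) = G n N 0 1 := G_even 0 1
  rw [a1, a2, a3] at l1
  rw [a2, a4] at l2
  rw [a5, a3] at l3
  rw [a6] at l4
  have c1 : 2 * (3 * (G n N 0 2 - G n N 0 0)) ∈ I (Reg η) (Φ n) 3 := by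
    have := (I (Reg η) (Φ n) 3).sub_mem ((I (Reg η) (Φ n) 3).sub_mem
      ((I (Reg η) (Φ n) 3).add_mem l1 l1) l2) l3
    convert this using 1
    ring
  have c2 := of_unit_mul h3.2.2 h3.2.1 (of_unit_mul h2.2.2 h2.2.1 c1)
  have c3 : 2 * (2 * (G n N 0 1 - G n N 0 0)) ∈ I (Reg η) (Φ n) 3 := by
    have := (I (Reg η) (Φ n) 3).sub_mem c2 l4
    convert this using 1
    ring
  exact of_unit_mul h2.2.2 h2.2.1 (of_unit_mul h2.2.2 h2.2.1 c3)

theorem κ_one {b : ℕ} (hb : N = 2 * b) : Cg (Reg η) (Φ n) 1 (κ n N 0 0) 1 := by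
  have h1 := H1 hη hn
  have h2 := H2 hη hn
  have hq0 : q ≠ 0 := q_ne
  have e0 : κ n N 0 0 = (q⁻¹ * q ^ N) * (rs n q (-1) N ^ 4 * rs n (q ^ 2) (-1) N) := by
    unfold κ
    simp only [mul_zero, zpow_zero, one_mul, sub_zero, add_zero]
    ring
  have a1 : rs n q (-1) N = (q ^ N)⁻¹ * (r q N)⁻¹ := by
    rw [← mul_inv]; exact eq_inv_of_mul_eq_one_left h1.rev_N
  have a2 : rs n (q ^ 2) (-1) N = ((q ^ 2) ^ N)⁻¹ * (r (q ^ 2) N)⁻¹ := by
    rw [← mul_inv]; exact eq_inv_of_mul_eq_one_left h2.rev_N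
  rw [e0, a1, a2]
  have c1 := (Cg.refl (k := 1) (π := Φ n) (h1.hp.pow N).inv).mul h1.r_N.inv
  have c2 := (Cg.refl (k := 1) (π := Φ n) (h2.hp.pow N).inv).mul h2.r_N.inv
  have c3 := (Cg.refl (k := 1) (π := Φ n) (h1.hp.inv.mul (h1.hp.pow N))).mul ((c1.pow 4).mul c2)
  refine c3.trans ?_
  have h5 : ((-1 : RatFunc ℚ)) ^ N = 1 := by rw [hb, pow_mul]; norm_num
  have e : q⁻¹ * q ^ N * (((q ^ N)⁻¹ * ((-1) ^ N * (q ^ (N * (N + 1)))⁻¹)⁻¹) ^ 4 *
      (((q ^ 2) ^ N)⁻¹ * ((-1) ^ N * ((q ^ 2) ^ (N * (N + 1)))⁻¹)⁻¹)) =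
      (q ^ n) ^ (3 * N) * (q ^ n)⁻¹ := by
    have h6 : q ^ N * (q ^ (N * (N + 1))) ^ 4 * (q ^ 2) ^ (N * (N + 1)) * q ^ n =
        (q ^ n) ^ (3 * N) * (q * (q ^ N) ^ 4 * (q ^ 2) ^ N) := by
      simp only [← pow_mul, ← pow_add, ← pow_succ']
      congr 1
      rw [hn]; ring
    rw [h5, one_mul, inv_inv, one_mul, inv_inv]
    have b1 : q ^ N ≠ 0 := pow_ne_zero _ hq0
    have b2 : (q ^ 2) ^ N ≠ 0 := pow_ne_zero _ (pow_ne_zero _ hq0)
    have b3 : q ^ n ≠ 0 := pow_ne_zero _ hq0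
    rw [eq_mul_inv_iff_mul_eq₀ b3]
    have e1 : q⁻¹ * q ^ N * (((q ^ N)⁻¹ * q ^ (N * (N + 1))) ^ 4 *
        (((q ^ 2) ^ N)⁻¹ * (q ^ 2) ^ (N * (N + 1)))) * q ^ n =
        (q ^ N * (q ^ (N * (N + 1))) ^ 4 * (q ^ 2) ^ (N * (N + 1)) * q ^ n) *
          (q⁻¹ * (q ^ N)⁻¹ ^ 4 * ((q ^ 2) ^ N)⁻¹) := by ring
    rw [e1, h6]
    generalize (q ^ n) ^ (3 * N) = x at *
    generalize (q ^ 2) ^ N = v at *
    generalize q ^ N = t at *
    field_simp
  rw [e]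
  have hw1 : Cg (Reg η) (Φ n) 1 (q ^ n) 1 :=
    ⟨h1.Uw, U.one, by rw [← neg_sub]; exact (I (Reg η) (Φ n) 1).neg_mem h1.hw⟩
  have c4 := (hw1.pow (3 * N)).mul hw1.inv
  rwa [one_pow, inv_one, one_mul] at c4

theorem κ_01 : κ n N 0 1 - κ n N 0 0 ∈ I (Reg η) (Φ n) 2 := by
  have h2 := U_two hη hn
  have l1 := second (sm_κ hη hn 0 0 1 0) (-1)
  norm_num at l1
  have a1 : κ n N 0 (-1) = κ n N 0 1 := κ_even 0 1
  rw [a1] at l1
  apply of_unit_mul h2.2.2 h2.2.1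
  convert l1 using 1
  ring

theorem U_one_add {b : ℕ} (hb : N = 2 * b) {x : RatFunc ℚ}
    (hx : x - κ n N 0 0 ∈ I (Reg η) (Φ n) 1) : U (Reg η) (1 + x) := by
  have h := H1 hη hn
  apply h.hloc 2 _ h.two
  have h1 := (κ_one hη hn hb).2.2
  have := (I (Reg η) (Φ n) 1).neg_mem ((I (Reg η) (Φ n) 1).add_mem hx h1)
  convert this using 1
  ring

theorem E01_mem {b : ℕ} (hb : N = 2 * b) : E n N 0 1 ∈ I (Reg η) (Φ n) 1 := by
  have h := H1 hη hn
  rw [E_01 hη hn hb, mul_comm]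
  refine mul_O ((Reg η).prod_mem (fun i hi => ?_)) h.hw
  have hi' := mem_range.1 hi
  have n1 := h.hu (4 * i + 2) (by
    rintro ⟨t, ht⟩
    have : t < 2 := by
      by_contra hc
      have : n * 2 ≤ n * t := Nat.mul_le_mul_left n (by omega)
      omega
    interval_cases t <;> omega)
  have n2 := h.hu (4 * i + 4) (by
    rintro ⟨t, ht⟩
    have : t < 2 := by
      by_contra hc
      have : n * 2 ≤ n * t := Nat.mul_le_mul_left n (by omega)
      omega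
    interval_cases t <;> omega)
  exact ((n1.div n2).pow 2).1

theorem E00 {b : ℕ} (hb : N = 2 * b) : E n N 0 0 - E n N 0 1 ∈ I (Reg η) (Φ n) 3 ∧
    E n N 0 0 ∈ I (Reg η) (Φ n) 1 := by
  have h := H1 hη hn
  have h1 := G_01 hη hn
  rw [G_eq hη hn hb, G_eq hη hn hb] at h1
  have h2 := E01_mem hη hn hb
  have h3 := κ_01 hη hn
  have h4 := mul_I h2 h3
  have hU := U_one_add hη hn hb (x := κ n N 0 0) (by rw [sub_self]; exact
    (I (Reg η) (Φ n) 1).zero_mem)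
  have h5 : (1 + κ n N 0 0) * (E n N 0 0 - E n N 0 1) ∈ I (Reg η) (Φ n) 3 := by
    have := (I (Reg η) (Φ n) 3).sub_mem h4 h1
    convert this using 1
    ring
  have h6 := of_unit_mul hU.2.2 hU.2.1 h5
  refine ⟨h6, ?_⟩
  have h7 := (I (Reg η) (Φ n) 1).add_mem (mono h.hπ (show 1 ≤ 3 by norm_num) h6) h2
  convert h7 using 1
  ring

theorem E_block {b : ℕ} (hb : N = 2 * b) (j : ℕ) :
    E n N (2 * j) 0 * (1 + κ n N (2 * j) 0) - (4 * j + 1) * (E n N 0 0 * (1 + κ n N 0 0)) ∈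
      I (Reg η) (Φ n) 3 := by
  have h := H1 hη hn
  have s1 := sm_G hη hn 1 0 0 0
  have h1 := antisymm_lin h.hπ h.two s1 (fun x => by
    simp only [zero_mul, one_mul, add_zero]
    exact G_anti x 0) (2 * j)
  simp only [zero_mul, one_mul, add_zero] at h1
  rw [G_eq hη hn hb, G_eq hη hn hb] at h1
  convert h1 using 1
  push_cast
  ring

theorem κ_block {b : ℕ} (hb : N = 2 * b) (j : ℕ) :
    (1 + κ n N 0 0) * κ n N 0 0 ^ (2 * j) - (1 + κ n N (2 * j) 0) ∈ I (Reg η) (Φ n) 2 := by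
  have h := H1 hη hn
  have s1 : Sm (Reg η) (Φ n) 2 0 (fun x => κ n N x 0) := by
    have s2 := Sm.mono h.hπ (sm_κ hη hn 1 0 0 0)
    simpa using s2
  have h1 := Sm.lin s1 (2 * j)
  have hκ := κ_one hη hn hb
  have hκI := hκ.symm.2.2
  have h2 := pow_expand (κ n N 0 0) hκ.1.1 hκI (2 * j)
  -- `κ(-1) κ(0) = 1`
  have h3 : κ n N (-1) 0 * κ n N 0 0 = 1 := by
    have b1 := h.rev_N
    have b2 := (H2 hη hn).rev_N
    have hq0 : q ≠ 0 := q_ne
    have k1 : κ n N (-1) 0 = (q ^ n) ^ 2 * (q⁻¹ * q ^ N) * (r q N ^ 4 * r (q ^ 2) N) := by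
      unfold κ
      simp only [sub_zero, add_zero]
      rw [show (-2 : ℤ) * (-1) = 2 by norm_num, show (-1 : ℤ) - (-1) = 0 by norm_num, rs_zero,
        rs_zero]
      have h7 : (q ^ n) ^ (2 : ℤ) = (q ^ n) ^ 2 := rfl
      rw [h7]
      ring
    have k0 : κ n N 0 0 = (q⁻¹ * q ^ N) * (rs n q (-1) N ^ 4 * rs n (q ^ 2) (-1) N) := by
      unfold κ
      simp only [mul_zero, zpow_zero, one_mul, sub_zero, add_zero]
      ring
    have e2 : (q ^ n) ^ 2 * (q⁻¹ * q ^ N * (q⁻¹ * q ^ N)) = (q ^ N) ^ 4 * (q ^ 2) ^ N := by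
      have h6 : (q ^ n) ^ 2 * (q ^ N * q ^ N) = (q ^ N) ^ 4 * (q ^ 2) ^ N * (q * q) := by
        simp only [← pow_mul, ← pow_add, ← pow_two]
        congr 1
        rw [hn]; ring
      have h8 : (q ^ n) ^ 2 * (q⁻¹ * q ^ N * (q⁻¹ * q ^ N)) =
          ((q ^ n) ^ 2 * (q ^ N * q ^ N)) * (q⁻¹ * q⁻¹) := by ring
      rw [h8, h6]
      field_simp
    rw [k1, k0]
    have e3 : ((q ^ n) ^ 2 * (q⁻¹ * q ^ N) * (r q N ^ 4 * r (q ^ 2) N)) *
        ((q⁻¹ * q ^ N) * (rs n q (-1) N ^ 4 * rs n (q ^ 2) (-1) N)) =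
        ((q ^ n) ^ 2 * (q⁻¹ * q ^ N * (q⁻¹ * q ^ N))) * (r q N ^ 4 * r (q ^ 2) N *
          (rs n q (-1) N ^ 4 * rs n (q ^ 2) (-1) N)) := by ring
    have e4 : (q ^ N) ^ 4 * (q ^ 2) ^ N * (r q N ^ 4 * r (q ^ 2) N *
          (rs n q (-1) N ^ 4 * rs n (q ^ 2) (-1) N)) =
        (rs n q (-1) N * (q ^ N * r q N)) ^ 4 *
          (rs n (q ^ 2) (-1) N * ((q ^ 2) ^ N * r (q ^ 2) N)) := by ring
    rw [e3, e2, e4, b1, b2]
    norm_num
  have hU : κ n N (-1) 0 ∈ Reg η := (U_κ hη hn (-1) 0).1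
  have hU0 : κ n N 0 0 ∈ Reg η := hκ.1.1
  generalize κ n N 0 0 = k0 at *
  generalize κ n N (-1) 0 = k1 at *
  have e : (1 + k0) * k0 ^ (2 * j) - (1 + κ n N (2 * j) 0) =
      (1 + k0) * (k0 ^ (2 * j) - (1 - ((2 * j : ℕ) : RatFunc ℚ) * (1 - k0))) -
      (κ n N ((2 * j : ℕ) : ℤ) 0 - (k0 + ((2 * j : ℕ) : RatFunc ℚ) * (k0 - k1))) +
      (((2 * j : ℕ) : RatFunc ℚ) * (k1 * (1 + k0))) * (1 - k0) ^ 2 := by
    push_cast
    linear_combination (2 * j * (1 + k0 - k0 ^ 2) : RatFunc ℚ) * h3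
  rw [e]
  have m1 : 1 + k0 ∈ Reg η := (Reg η).add_mem (Reg η).one_mem hU0
  exact (I (Reg η) (Φ n) 2).add_mem ((I (Reg η) (Φ n) 2).sub_mem (mul_O m1 h2) h1)
    (mul_O ((Reg η).mul_mem (nat_O _) ((Reg η).mul_mem hU m1)) (pow_I hκI 2))

/-- the terms in the blocks -/
theorem block (j i : ℕ) : (1 - q) * ((-1) ^ (n * j + i) * qint (4 * (n * j + i) + 1) *
    a (n * j + i) * RatFunc.X ^ (n * j + i)) = A n j * e n i (2 * j) 0 := by
  rw [a_eq]
  unfold A e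
  have e0 := qint_eq (4 * (n * j + i) + 1)
  have e1 : ((q ^ n) ^ (2 * (2 * (j : ℤ)))) = (q ^ n) ^ (4 * j) := by
    rw [show (2 * (2 * (j : ℤ))) = ((4 * j : ℕ) : ℤ) by push_cast; ring, zpow_natCast]
  have e2 : (-1 : RatFunc ℚ) ^ (n * j + i) = (-1) ^ j * (-1) ^ i := by
    rw [pow_add, hn, show (2 * N + 1) * j = 2 * (N * j) + j by ring, pow_add, pow_mul]
    norm_num
  have e3 : q ^ (4 * (n * j + i) + 1) = (q ^ n) ^ (4 * j) * q ^ (4 * i + 1) := by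
    simp only [← pow_mul, ← pow_add]; congr 1; ring
  have e4 : (RatFunc.X : RatFunc ℚ) ^ (n * j + i) = (q ^ n) ^ j * q ^ i := by
    simp only [← pow_mul, ← pow_add]
  rw [e3] at e0
  rw [e1, e2, e4, r_split (n := n), r_split (n := n), add_zero, sub_zero]
  linear_combination ((-1) ^ j * (-1) ^ i * ((r q (n * j) * rs n q (2 * j) i) ^ 4 *
    (r (q ^ 2) (n * j) * rs n (q ^ 2) (2 * j) i)) * ((q ^ n) ^ j * q ^ i)) * e0

theorem A_cg (j : ℕ) : Cg (Reg η) (Φ n) 2 (A n j)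
    ((-1) ^ j * c (RatFunc ℚ) j ^ 5 * κ n N 0 0 ^ (2 * j)) := by
  have h1 := H1 hη hn
  have h2 := H2 hη hn
  have hq0 : q ≠ 0 := q_ne
  set P1 := P n N q with hP1
  set P2 := P n N (q ^ 2) with hP2
  have hh1 : Cg (Reg η) (Φ n) 2 (hh n q ^ 2) (q ^ n) := by
    refine ⟨h1.U_hh.pow 2, h1.Uw, ?_⟩
    have e : hh n q ^ 2 - q ^ n = ((2 : RatFunc ℚ)⁻¹) ^ 2 * (1 - q ^ n) ^ 2 := by
      unfold hh
      generalize q ^ n = u
      have : (2 : RatFunc ℚ) ≠ 0 := by norm_num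
      field_simp
      ring
    rw [e]
    exact mul_O ((Reg η).pow_mem h1.two.2.1 2) (pow_I h1.hw 2)
  have hh2 : Cg (Reg η) (Φ n) 2 (hh n (q ^ 2)) (q ^ n) := by
    refine ⟨h2.U_hh, h1.Uw, ?_⟩
    have e : hh n (q ^ 2) - q ^ n = (2 : RatFunc ℚ)⁻¹ * (1 - q ^ n) ^ 2 := by
      unfold hh
      rw [← pow_mul, mul_comm 2 n, pow_mul]
      field_simp
      ring
    rw [e]
    exact mul_O h1.two.2.1 (pow_I h1.hw 2)
  have r1 := h1.r_block j
  have r2 := h2.r_block j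
  have hm1 : U (Reg η) ((-1 : RatFunc ℚ)) := by
    refine ⟨(Reg η).neg_mem (Reg η).one_mem, ?_, by norm_num⟩
    rw [inv_neg, inv_one]
    exact (Reg η).neg_mem (Reg η).one_mem
  have s1 := (Cg.refl (k := 2) (π := Φ n) ((hm1.pow j).mul (h1.Uw.pow j))).mul
    ((r1.pow 4).mul r2)
  have e1 : (-1) ^ j * (q ^ n) ^ j * ((c (RatFunc ℚ) j * ((hh n q)⁻¹ * P n N q) ^ j) ^ 4 *
      (c (RatFunc ℚ) j * ((hh n (q ^ 2))⁻¹ * P n N (q ^ 2)) ^ j)) =
      (-1) ^ j * c (RatFunc ℚ) j ^ 5 * ((q ^ n * (((hh n q ^ 2)⁻¹) ^ 2 * (hh n (q ^ 2))⁻¹) *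
        (P1 ^ 4 * P2))) ^ j := by
    rw [← hP1, ← hP2]
    simp only [mul_pow, ← pow_mul, inv_pow]
    ring
  rw [e1] at s1
  refine s1.trans ?_
  have s2 := (Cg.refl (k := 2) (π := Φ n) ((hm1.pow j).mul ((h1.U_c j).pow 5))).mul
    ((((Cg.refl (k := 2) (π := Φ n) h1.Uw).mul ((hh1.inv.pow 2).mul hh2.inv)).mul
      (Cg.refl (k := 2) (π := Φ n) ((h1.U_P.pow 4).mul h2.U_P))).pow j)
  have e2 : (-1) ^ j * c (RatFunc ℚ) j ^ 5 * (q ^ n * (((q ^ n)⁻¹) ^ 2 * (q ^ n)⁻¹) *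
      (P n N q ^ 4 * P n N (q ^ 2))) ^ j = (-1) ^ j * c (RatFunc ℚ) j ^ 5 *
      κ n N 0 0 ^ (2 * j) := by
    rw [pow_mul _ 2 j]
    congr 2
    have k0 : κ n N 0 0 = (q⁻¹ * q ^ N) * (rs n q (-1) N ^ 4 * rs n (q ^ 2) (-1) N) := by
      unfold κ
      simp only [mul_zero, zpow_zero, one_mul, sub_zero, add_zero]
      ring
    rw [k0]
    unfold P
    have hw0 := h1.Uw.2.2
    have h6 : (q ^ N) ^ 4 * (q ^ 2) ^ N * q ^ 2 = (q ^ n) ^ 2 * (q ^ N) ^ 2 := by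
      simp only [← pow_mul, ← pow_add]
      congr 1
      rw [hn]; ring
    generalize rs n q (-1) N = x
    generalize rs n (q ^ 2) (-1) N = y
    generalize (q ^ 2) ^ N = z at *
    generalize q ^ N = t at *
    generalize q ^ n = u at *
    have h7 : u * (u⁻¹ ^ 2 * u⁻¹) * ((t * x ^ 2) ^ 4 * (z * y ^ 2)) =
        (t ^ 4 * z * q ^ 2) * (u * u⁻¹ ^ 3 * x ^ 8 * y ^ 2 * (q⁻¹) ^ 2) := by
      field_simp
    rw [h7, h6]
    field_simp
  rw [e2] at s2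
  exact s2

/-- The congruence for `n > 1`. -/
theorem local_main {b : ℕ} (hb : N = 2 * b) (hN : 0 < N) (m : ℕ) :
    S m n - T m n ∈ I (Reg η) (Φ n) 3 := by
  have h := H1 hη hn
  have h2 := H2 hη hn
  have h1q : U (Reg η) (1 - q) := by
    have := h.hu 1 (by intro hd; have := Nat.le_of_dvd one_pos hd; omega)
    rwa [pow_one] at this
  have hE00 := E00 hη hn hb
  -- a block
  have hblk : ∀ j : ℕ, ∑ i ∈ range n, (1 - q) * ((-1) ^ (n * j + i) *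
      qint (4 * (n * j + i) + 1) * a (n * j + i) * RatFunc.X ^ (n * j + i)) -
      ((-1) ^ j * c (RatFunc ℚ) j ^ 5 * (4 * j + 1)) * E n N 0 0 ∈ I (Reg η) (Φ n) 3 := by
    intro j
    have hA := A_cg hη hn j
    have e1 : ∑ i ∈ range n, (1 - q) * ((-1) ^ (n * j + i) *
      qint (4 * (n * j + i) + 1) * a (n * j + i) * RatFunc.X ^ (n * j + i)) =
        A n j * E n N (2 * j) 0 + A n j * ∑ i ∈ range N, e n (N + 1 + i) (2 * j) 0 := by
      rw [sum_congr rfl (fun i _ => block hη hn j i), ← mul_sum, ← mul_add]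
      congr 1
      rw [show range n = range ((N + 1) + N) by congr 1; omega, sum_range_add]
      rfl
    have t1 : A n j * ∑ i ∈ range N, e n (N + 1 + i) (2 * j) 0 ∈ I (Reg η) (Φ n) 3 := by
      refine mul_O hA.1.1 (AddSubgroup.sum_mem _ (fun i hi => ?_))
      have hi' := mem_range.1 hi
      unfold e
      rw [add_zero, sub_zero]
      have t2 := h.tail j (show N < N + 1 + i by omega) (show N + 1 + i < n by omega)
      have t3 := h2.tail j (show N < N + 1 + i by omega) (show N + 1 + i < n by omega)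
      have t4 := mul_I (mul_I (pow_I t2 2) t3) (mul_I t2 t2)
      have z := (h.wz (2 * (2 * j))).1
      exact mul_O ((Reg η).mul_mem ((Reg η).mul_mem ((Reg η).pow_mem ((Reg η).neg_mem
        (Reg η).one_mem) _) ((Reg η).sub_mem (Reg η).one_mem ((Reg η).mul_mem z
        (q_pow_mem η _)))) (q_pow_mem η _)) (mono h.hπ (by norm_num) t4)
    have hB := E_block hη hn hb j
    have hK := κ_block hη hn hb j
    have hκs : κ n N (2 * j) 0 - κ n N 0 0 ∈ I (Reg η) (Φ n) 1 := by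
      have s2 := sm_κ hη hn 1 0 0 0
      simp only [zero_mul, one_mul, add_zero] at s2
      have s3 := s2.2.val
      have key : ∀ m : ℕ, κ n N (m : ℤ) 0 - κ n N 0 0 ∈ I (Reg η) (Φ n) 1 := by
        intro m
        induction m with
        | zero => simp
        | succ m ih =>
          have s4 := (I (Reg η) (Φ n) 1).add_mem (s3 (m : ℤ)) ih
          simp only [zero_add] at s4
          convert s4 using 1
          push_cast
          ring
      have := key (2 * j)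
      push_cast at this
      exact this
    have hU := U_one_add hη hn hb hκs
    have hU0 := U_one_add hη hn hb (x := κ n N 0 0) (by rw [sub_self]; exact
      (I (Reg η) (Φ n) 1).zero_mem)
    have hκ0 := (U_κ hη hn 0 0)
    have hc := (h.U_c j).pow 5
    -- `(1 + κ(2j)) (A E(2j) - ...)`
    have main : (1 + κ n N (2 * j) 0) * (A n j * E n N (2 * j) 0 -
        ((-1) ^ j * c (RatFunc ℚ) j ^ 5 * (4 * j + 1)) * E n N 0 0) ∈ I (Reg η) (Φ n) 3 := by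
      have e2 : (1 + κ n N (2 * j) 0) * (A n j * E n N (2 * j) 0 -
          ((-1) ^ j * c (RatFunc ℚ) j ^ 5 * (4 * j + 1)) * E n N 0 0) =
          A n j * (E n N (2 * j) 0 * (1 + κ n N (2 * j) 0) -
            (4 * j + 1) * (E n N 0 0 * (1 + κ n N 0 0))) +
          ((4 * j + 1) * (1 + κ n N 0 0)) * (E n N 0 0 * (A n j -
            (-1) ^ j * c (RatFunc ℚ) j ^ 5 * κ n N 0 0 ^ (2 * j))) +
          ((4 * j + 1) * ((-1) ^ j * c (RatFunc ℚ) j ^ 5)) * (E n N 0 0 *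
            ((1 + κ n N 0 0) * κ n N 0 0 ^ (2 * j) - (1 + κ n N (2 * j) 0))) := by ring
      rw [e2]
      have m4 : (4 : RatFunc ℚ) ∈ Reg η := by exact_mod_cast nat_O (O := Reg η) 4
      have m1 : (4 * (j : RatFunc ℚ) + 1) ∈ Reg η :=
        (Reg η).add_mem ((Reg η).mul_mem m4 (nat_O j)) (Reg η).one_mem
      have m2 : ((-1 : RatFunc ℚ) ^ j * c (RatFunc ℚ) j ^ 5) ∈ Reg η :=
        (Reg η).mul_mem ((Reg η).pow_mem ((Reg η).neg_mem (Reg η).one_mem) j) hc.1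
      exact (I (Reg η) (Φ n) 3).add_mem ((I (Reg η) (Φ n) 3).add_mem (mul_O hA.1.1 hB)
        (mul_O ((Reg η).mul_mem m1 hU0.1) (mul_I hE00.2 hA.2.2)))
        (mul_O ((Reg η).mul_mem m1 m2) (mul_I hE00.2 hK))
    have main2 := of_unit_mul hU.2.2 hU.2.1 main
    rw [e1]
    have := (I (Reg η) (Φ n) 3).add_mem main2 t1
    convert this using 1
    ring
  have hC : E n N 0 0 - (1 - q) * lam n ∈ I (Reg η) (Φ n) 3 := by
    have h3 := hE00.1
    rw [E_01 hη hn hb] at h3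
    convert h3 using 2
    unfold lam
    rw [show (n - 1) / 4 = b by omega, ← mul_assoc, qint_eq]
  have hlam : ∑ k ∈ range (m * n), (1 - q) * ((-1) ^ k * qint (4 * k + 1) * a k * RatFunc.X ^ k) -
      (1 - q) * T m n ∈ I (Reg η) (Φ n) 3 := by
    rw [mul_comm m n, sum_blocks]
    unfold T
    have e5 : ((∑ k ∈ range m, (-1) ^ k * (4 * k + 1) * ck k : ℚ) : RatFunc ℚ) =
        ∑ k ∈ range m, ((-1) ^ k * c (RatFunc ℚ) k ^ 5 * (4 * k + 1)) := by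
      push_cast
      apply sum_congr rfl
      intro k _
      rw [ck_eq]
      ring
    rw [e5, mul_sum, mul_sum, ← sum_sub_distrib]
    apply AddSubgroup.sum_mem
    intro j _
    have m4 : (4 : RatFunc ℚ) ∈ Reg η := by exact_mod_cast nat_O (O := Reg η) 4
    have m1 : ((-1 : RatFunc ℚ) ^ j * c (RatFunc ℚ) j ^ 5 * (4 * j + 1)) ∈ Reg η :=
      (Reg η).mul_mem ((Reg η).mul_mem ((Reg η).pow_mem ((Reg η).neg_mem (Reg η).one_mem) j)
        ((h.U_c j).pow 5).1) ((Reg η).add_mem ((Reg η).mul_mem m4 (nat_O j)) (Reg η).one_mem)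
    have := (I (Reg η) (Φ n) 3).add_mem (hblk j) (mul_O m1 hC)
    convert this using 1
    ring
  apply of_unit_mul h1q.2.2 h1q.2.1
  rw [mul_sub]
  unfold S
  rw [mul_sum]
  exact hlam

end loc

/-! ### The case `n = 1` -/

open Q278.Jet in
theorem one_sub_pow_eq (j : ℕ) : 1 - q ^ (j + 1) = (1 - q) * (((j : RatFunc ℚ) + 1) *
    (((j : RatFunc ℚ) + 1)⁻¹ * ∑ i ∈ range (j + 1), q ^ i)) := by
  have h0 : ((j : RatFunc ℚ) + 1) ≠ 0 := by exact_mod_cast Nat.succ_ne_zero j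
  rw [← mul_assoc ((j : RatFunc ℚ) + 1), mul_inv_cancel₀ h0, one_mul]
  exact (qint_eq (j + 1)).symm

/-- `[j + 1] / (j + 1)` -/
noncomputable def Nq (j : ℕ) : RatFunc ℚ := ((j : RatFunc ℚ) + 1)⁻¹ * ∑ i ∈ range (j + 1), q ^ i

open Q278.Jet in
theorem J_Nq (j : ℕ) : J (Nq j) (j / 2) (j * (j - 1) / 6) := J.qint j

open Q278.Jet in
theorem J_a (k : ℕ) : J ((c (RatFunc ℚ) k ^ 5)⁻¹ * a k) (-3 * k)
    (9 * k ^ 2 - (4 * k * (4 * k - 1) / 6 + 2 * k ^ 2 + k * (k - 1) / 2)) := by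
  have key : a k = c (RatFunc ℚ) k ^ 5 * ∏ j ∈ range k,
      (Nq (2 * j) ^ 4 * Nq (4 * j + 1) * ((Nq (2 * j + 1) ^ 4)⁻¹ * (Nq (4 * j + 3))⁻¹)) := by
    unfold a c
    rw [← prod_pow, ← prod_mul_distrib]
    apply prod_congr rfl
    intro j _
    have e1 := one_sub_pow_eq (2 * j)
    have e2 := one_sub_pow_eq (4 * j + 1)
    have e3 := one_sub_pow_eq (2 * j + 1)
    have e4 := one_sub_pow_eq (4 * j + 3)
    have h1 : (1 : RatFunc ℚ) - q ≠ 0 := by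
      have := one_sub_q_ne (i := 1) one_pos
      rwa [pow_one] at this
    have n1 := (J_Nq (2 * j + 1)).unit.2.2
    have n2 := (J_Nq (4 * j + 3)).unit.2.2
    change 1 - q ^ (2 * j + 1) = (1 - q) * ((((2 * j : ℕ) : RatFunc ℚ) + 1) * Nq (2 * j)) at e1
    change 1 - q ^ (4 * j + 2) = (1 - q) * ((((4 * j + 1 : ℕ) : RatFunc ℚ) + 1) *
      Nq (4 * j + 1)) at e2
    change 1 - q ^ (2 * j + 2) = (1 - q) * ((((2 * j + 1 : ℕ) : RatFunc ℚ) + 1) *
      Nq (2 * j + 1)) at e3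
    change 1 - q ^ (4 * j + 4) = (1 - q) * ((((4 * j + 3 : ℕ) : RatFunc ℚ) + 1) *
      Nq (4 * j + 3)) at e4
    rw [e1, e2, e3, e4]
    have c1 : ((2 * j + 2 : ℕ) : RatFunc ℚ) ≠ 0 := by exact_mod_cast (by omega : 2 * j + 2 ≠ 0)
    have c2 : ((4 * j + 4 : ℕ) : RatFunc ℚ) ≠ 0 := by exact_mod_cast (by omega : 4 * j + 4 ≠ 0)
    generalize Nq (2 * j + 1) = x1 at *
    generalize Nq (4 * j + 3) = x2 at *
    generalize Nq (2 * j) = x3 at *
    generalize Nq (4 * j + 1) = x4 at *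
    have d1 : (((2 * j + 1 : ℕ) : RatFunc ℚ) + 1) = ((2 * j + 2 : ℕ) : RatFunc ℚ) := by
      push_cast; ring
    have d2 : (((4 * j + 3 : ℕ) : RatFunc ℚ) + 1) = 2 * ((2 * j + 2 : ℕ) : RatFunc ℚ) := by
      push_cast; ring
    have d3 : (((2 * j : ℕ) : RatFunc ℚ) + 1) = ((2 * j + 1 : ℕ) : RatFunc ℚ) := by
      push_cast; ring
    have d4 : (((4 * j + 1 : ℕ) : RatFunc ℚ) + 1) = 2 * ((2 * j + 1 : ℕ) : RatFunc ℚ) := by
      push_cast; ring
    rw [d1, d2, d3, d4]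
    generalize ((2 * j + 2 : ℕ) : RatFunc ℚ) = y1 at *
    generalize ((2 * j + 1 : ℕ) : RatFunc ℚ) = y2 at *
    generalize (1 - q) = z at *
    have : (2 : RatFunc ℚ) ≠ 0 := by norm_num
    field_simp
  have hc : c (RatFunc ℚ) k ≠ 0 := by
    unfold c
    rw [prod_ne_zero_iff]
    intro j _
    have c1 : ((2 * j + 1 : ℕ) : RatFunc ℚ) ≠ 0 := by exact_mod_cast (by omega : 2 * j + 1 ≠ 0)
    have c2 : ((2 * j + 2 : ℕ) : RatFunc ℚ) ≠ 0 := by exact_mod_cast (by omega : 2 * j + 2 ≠ 0)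
    exact div_ne_zero c1 c2
  rw [key, ← mul_assoc, inv_mul_cancel₀ (pow_ne_zero _ hc), one_mul]
  clear key hc
  induction k with
  | zero => simpa using J.one
  | succ k ih =>
    rw [prod_range_succ]
    have s1 := ((J_Nq (2 * k)).pow 4).mul (J_Nq (4 * k + 1))
    have s2 := (((J_Nq (2 * k + 1)).pow 4).inv).mul (J_Nq (4 * k + 3)).inv
    convert ih.mul (s1.mul s2) using 1
    · push_cast; ring
    · push_cast; ring

open Q278.Jet in
theorem one_main (m : ℕ) : S m 1 - T m 1 ∈ I (Reg (1 : ℂ)) (Φ 1) 3 := by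
  have hlam : lam 1 = 1 := by
    unfold lam qint
    simp
  unfold S T
  rw [hlam, one_mul, mul_one]
  push_cast
  rw [← sum_sub_distrib]
  apply AddSubgroup.sum_mem
  intro k _
  rw [ck_eq]
  have h1 := ((J_Nq (4 * k)).mul (J_a k)).mul (J.q_pow k)
  have h2 : J (Nq (4 * k) * ((c (RatFunc ℚ) k ^ 5)⁻¹ * a k) * q ^ k) 0 0 := by
    convert h1 using 1
    · push_cast; ring
    · push_cast; ring
  unfold J at h2
  have hc : c (RatFunc ℚ) k ≠ 0 := by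
    unfold c
    rw [prod_ne_zero_iff]
    intro j _
    have c1 : ((2 * j + 1 : ℕ) : RatFunc ℚ) ≠ 0 := by exact_mod_cast (by omega : 2 * j + 1 ≠ 0)
    have c2 : ((2 * j + 2 : ℕ) : RatFunc ℚ) ≠ 0 := by exact_mod_cast (by omega : 2 * j + 2 ≠ 0)
    exact div_ne_zero c1 c2
  have hcm : (-1 : RatFunc ℚ) ^ k * (4 * k + 1) * c (RatFunc ℚ) k ^ 5 ∈ Reg (1 : ℂ) := by
    rw [← ck_eq]
    have := rat_mem ((-1) ^ k * (4 * k + 1) * ck k)
    push_cast at this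
    exact this
  have h3 := mul_O hcm h2
  convert h3 using 1
  have e0 : qint (4 * k + 1) = (4 * k + 1) * Nq (4 * k) := by
    unfold qint Nq
    have h0 : (((4 * k : ℕ) : RatFunc ℚ) + 1) ≠ 0 := by exact_mod_cast Nat.succ_ne_zero (4 * k)
    have h4 : ((4 : RatFunc ℚ) * k + 1) = (((4 * k : ℕ) : RatFunc ℚ) + 1) := by push_cast; ring
    rw [h4, ← mul_assoc, mul_inv_cancel₀ h0, one_mul]
  rw [e0]
  have hc5 : c (RatFunc ℚ) k ^ 5 ≠ 0 := pow_ne_zero _ hc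
  generalize c (RatFunc ℚ) k ^ 5 = x at *
  push_cast
  field_simp
  ring

/-- **MP_40e425_nt**: the congruence modulo `Φ_n(q) ^ 3`. -/
theorem result : ∀ m n : ℕ, 1 ≤ m → n % 4 = 1 →
    cyclotomic n ℚ ^ 3 ∣ RatFunc.num (S m n - T m n) ∧
    IsCoprime (RatFunc.denom (S m n - T m n)) (cyclotomic n ℚ ^ 3) := by
  intro m n _ hn4
  rcases Nat.lt_or_ge 1 n with hn1 | hn1
  · have hη := Complex.isPrimitiveRoot_exp n (by omega : n ≠ 0)
    have h1 := local_main hη (show n = 2 * ((n - 1) / 2) + 1 by omega)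
      (show (n - 1) / 2 = 2 * ((n - 1) / 4) by omega) (by omega) m
    obtain ⟨h2, h3⟩ := num_dvd (by omega) hη h1
    exact ⟨h2, h3.pow_right⟩
  · have hn : n = 1 := by omega
    subst hn
    obtain ⟨h2, h3⟩ := num_dvd one_pos Q278.Jet.one_prim (one_main m)
    exact ⟨h2, h3.pow_right⟩

end Pool.Agent.Results.MP_40e425_nt.Full
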